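import Mathlib
import Pool.Agent.Helper463.UBStmt
import Pool.Agent.Helper463.UBFinal

set_option autoImplicit false

namespace Pool.Agent.Results.MP_e0ff90_an.NotHyperfinite

open Pool.Agent.Helper463.UB

universe w

/-- Negative answer to the ultrapower bicommutant problem: there is a II₁ factor `N` acting on a
separable Hilbert space such that `(N' ∩ N^U)' ∩ N^U = N` for every nonprincipal ultrafilter `U` on
`ℕ`, although `N` is not hyperfinite, and `N` is not isomorphic to any hyperfinite II₁ factor `R`. -/
theorem result :
    ∃ (H : Type) (_ : NormedAddCommGroup H) (_ : InnerProductSpace ℂ H) (_ : CompleteSpace H)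
      (N : VonNeumannAlgebra H) (τ : Elt N → ℂ),
      TopologicalSpace.SeparableSpace H ∧ IsIIOneFactor N τ ∧ HasUltrapowers N τ ∧
      BicommutantEq N τ ∧ ¬ Hyperfinite N τ ∧ NotIsoHyperfinite.{0, w} N :=
  final

end Pool.Agent.Results.MP_e0ff90_an.NotHyperfinite
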